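import Pool.Agent.H85.ERG.Targets

/-!
# Polygonal billiards: joining a forward and a backward mesh orbit
-/

namespace Pool.Agent.H31.ERG

open MeasureTheory Set Metric Filter Topology Pool.Agent.H85.ERG Pool.Agent.H93.EN
open Pool.Agent.H93.BL hiding T_B1 T_B2 T_B3 T_SB T_SC

theorem jo (h3 : T_RV) : T_JO := by
  intro ι P κ hLS a h R ha hh hκ haR N y v y' v' h0 h0' hy hyM hy' hyM'
  obtain ⟨-, hrev, -, hback⟩ := h3 ι P κ a hLS ha
  let x : ℤ → ℂ := fun i => if 0 ≤ i then y i.toNat else y' (-i).toNat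
  let w : ℤ → ℂ := fun i => if 0 ≤ i then v i.toNat else -v' (-i).toNat
  have hxp : ∀ i : ℤ, 0 ≤ i → x i = y i.toNat := fun i hi => if_pos hi
  have hwp : ∀ i : ℤ, 0 ≤ i → w i = v i.toNat := fun i hi => if_pos hi
  have hxn : ∀ i : ℤ, i ≤ 0 → x i = y' (-i).toNat := by
    intro i hi
    rcases eq_or_lt_of_le hi with rfl | hlt
    · exact h0.symm
    · exact if_neg (not_le.2 hlt)
  have hwn : ∀ i : ℤ, i ≤ 0 → w i = -v' (-i).toNat := by
    intro i hi
    rcases eq_or_lt_of_le hi with rfl | hlt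
    · change v 0 = -v' 0
      rw [h0', neg_neg]
    · exact if_neg (not_le.2 hlt)
  refine ⟨x, w, rfl, rfl, ?_, ?_⟩
  · intro i hi1 hi2
    rcases le_or_gt 0 i with hi | hi
    · rw [hxp i hi, hwp i hi]
      exact hy _ (by omega)
    · rw [hxn i hi.le, hwn i hi.le, norm_neg]
      exact hy' _ (by omega)
  · intro i hi1 hi2
    rcases le_or_gt 0 i with hi | hi
    · rw [hxp i hi, hwp i hi, hxp (i + 1) (by omega), hwp (i + 1) (by omega)]
      have e : (i + 1).toNat = i.toNat + 1 := by omega
      rw [e]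
      exact hyM _ (by omega)
    · rw [hxn i hi.le, hwn i hi.le, hxn (i + 1) (by omega), hwn (i + 1) (by omega)]
      have e : (-i).toNat = (-(i + 1)).toNat + 1 := by omega
      set n : ℕ := (-(i + 1)).toNat with hn
      have hnN : n < N := by omega
      rw [e]
      have hM := hyM' n hnN
      have hM' : Mv P κ a (y' n) (v' n) ((h : ℂ) * v' n + 0) (y' (n + 1)) (v' (n + 1)) := by
        rw [add_zero]
        exact hM
      obtain ⟨e', he', hb⟩ := hback _ _ _ _ _ _ hM' (by
        have := (hy' (n + 1) (by omega)).2.2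
        linarith)
      rw [norm_zero] at he'
      rw [norm_eq_zero.1 he', add_zero] at hb
      have hr := hrev _ _ _ _ _ hb
      have e2 : (((-h : ℝ) : ℂ) * v' (n + 1)) = (h : ℂ) * (-v' (n + 1)) := by
        push_cast
        ring
      rw [e2] at hr
      exact hr

end Pool.Agent.H31.ERG
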