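import Pool.Agent.H85.ERG.Targets

/-!
# Polygonal billiards: the states without image under a mesh step form a null set
-/

namespace Pool.Agent.H31.ERG

open MeasureTheory Set Metric Filter Topology Pool.Agent.H85.ERG Pool.Agent.H93.EN
open Pool.Agent.H93.BL hiding T_B1 T_B2 T_B3 T_SB T_SC

/-- the cross product with a fixed vector -/
noncomputable def nlCr (u : ℂ) : ℂ →ₗ[ℝ] ℝ where
  toFun y := cr u y
  map_add' x y := by
    simp only [cr, Complex.add_re, Complex.add_im]
    ring
  map_smul' c y := by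
    simp only [cr, Complex.smul_re, Complex.smul_im, RingHom.id_apply, smul_eq_mul]
    ring

lemma nl_u_ne {ι : Type} (P : Polygon ι) (j : ι) : P.u j ≠ 0 := by
  have h1 : P.q j - P.p j ≠ 0 := sub_ne_zero.2 (P.ne j).symm
  have h2 : (P.len j : ℂ) ≠ 0 := by
    have : P.len j ≠ 0 := norm_ne_zero_iff.2 h1
    exact_mod_cast this
  exact div_ne_zero h1 h2

lemma nl_line {ι : Type} (P : Polygon ι) (j : ι) (c : ℂ) :
    volume {x : ℂ | sg P j (x + c) = 0} = 0 := by
  have hne : LinearMap.ker (nlCr (P.u j)) ≠ ⊤ := by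
    intro h
    have h1 : nlCr (P.u j) (Complex.I * P.u j) = 0 := by
      rw [LinearMap.ker_eq_top] at h
      rw [h]
      rfl
    have h2 : (P.u j).re ^ 2 + (P.u j).im ^ 2 = 0 := by
      have h3 : cr (P.u j) (Complex.I * P.u j) = 0 := h1
      simp only [cr, Complex.mul_re, Complex.mul_im, Complex.I_re, Complex.I_im] at h3
      linarith
    have h4 : (P.u j).re = 0 := by nlinarith [sq_nonneg (P.u j).re, sq_nonneg (P.u j).im]
    have h5 : (P.u j).im = 0 := by nlinarith [sq_nonneg (P.u j).re, sq_nonneg (P.u j).im]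
    exact nl_u_ne P j (Complex.ext h4 h5)
  have h0 : volume ((LinearMap.ker (nlCr (P.u j)) : Submodule ℝ ℂ) : Set ℂ) = 0 :=
    Measure.addHaar_submodule volume _ hne
  have h1 : {x : ℂ | sg P j (x + c) = 0} =
      (fun x => x + (c - P.p j)) ⁻¹' ((LinearMap.ker (nlCr (P.u j)) : Submodule ℝ ℂ) : Set ℂ) := by
    ext x
    have e : x + c - P.p j = x + (c - P.p j) := by ring
    constructor
    · intro hx
      have hx' : cr (P.u j) (x + c - P.p j) = 0 := hx
      rw [e] at hx'
      exact hx'
    · intro hx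
      have hx' : cr (P.u j) (x + (c - P.p j)) = 0 := hx
      rw [← e] at hx'
      exact hx'
  rw [h1, measure_preimage_add_right, h0]

lemma nl_cont {ι : Type} (P : Polygon ι) (j : ι) (h : ℝ) :
    Continuous (fun z : ℂ × ℂ => sg P j (z.1 + (h : ℂ) * z.2)) := by
  unfold sg cr
  fun_prop

theorem nl (h1 : T_MP) (h2 : T_PM) (h3 : T_FO) (h4 : T_PV) : T_NL := by
  intro ι _ P κ hLS a h R ha hh hκ haR n
  have hκpos : 0 < κ := hLS.1
  have hrh : Continuous (rh P) := continuous_infDist_pt _
  have hmR : MeasurableSet {z : ℂ × ℂ | R ≤ rh P z.1} :=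
    measurableSet_le measurable_const (hrh.measurable.comp measurable_fst)
  induction n with
  | zero =>
    have hmP := h2 ι P κ hLS a h ha hh hκ univ MeasurableSet.univ
    have hm : MeasurableSet (Nu P κ a h R 0) := by
      have e : Nu P κ a h R 0 = ({z : ℂ × ℂ | z.1 ∈ P.Ω} ∩ ({z : ℂ × ℂ | ‖z.2‖ = 1} ∩
          {z : ℂ × ℂ | R ≤ rh P z.1})) \ Pre P κ a h univ := by
        ext z
        constructor
        · rintro ⟨g1, g2, g3, g4⟩
          refine ⟨⟨g1, g2, g3⟩, ?_⟩
          rintro ⟨-, x', w', g5, -⟩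
          exact g4 ⟨x', w', g5⟩
        · rintro ⟨⟨g1, g2, g3⟩, g4⟩
          refine ⟨g1, g2, g3, ?_⟩
          rintro ⟨x', w', g5⟩
          exact g4 ⟨g2, x', w', g5, mem_univ _⟩
      rw [e]
      refine MeasurableSet.diff (MeasurableSet.inter ?_ (MeasurableSet.inter ?_ hmR)) hmP
      · exact measurable_fst P.isOpen.measurableSet
      · exact measurableSet_eq_fun measurable_snd.norm measurable_const
    refine ⟨hm, ?_⟩
    -- the lines
    set B : Set (ℂ × ℂ) := ⋃ j : ι, {z : ℂ × ℂ | sg P j (z.1 + (h : ℂ) * z.2) = 0} with hB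
    have hBm : MeasurableSet B :=
      MeasurableSet.iUnion fun j => (isClosed_eq (nl_cont P j h) continuous_const).measurableSet
    have hsub : ∀ x w, x ∈ P.Ω → ‖w‖ = 1 → (x, w) ∈ Nu P κ a h R 0 → (x, w) ∈ B := by
      rintro x w - - ⟨g1, g2, g3, g4⟩
      have g1' : x ∈ P.Ω := g1
      have g2' : ‖w‖ = 1 := g2
      have g3' : R ≤ rh P x := g3
      obtain ⟨τ, hτ⟩ := hLS.2.2.1 x g1'
      have hτ' : Chart P x (κ * rh P x) τ := hτ
      have hn : ‖(h : ℂ) * w‖ = h := by
        rw [norm_mul, g2', mul_one, Complex.norm_real, Real.norm_eq_abs, abs_of_nonneg hh]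
      have hkr : κ * a < 2 * (κ * rh P x) := by
        have : κ * a < κ * (2 * rh P x) := mul_lt_mul_of_pos_left (by linarith) hκpos
        linarith
      have hball : x + (h : ℂ) * w ∈ ball x (κ * rh P x) := by
        rw [mem_ball, dist_eq_norm, add_sub_cancel_left, hn]
        have : 0 < κ * a := by positivity
        linarith
      have hfo := (((h3 ι P).2.2 x _ τ hτ').1 _ hball).2.2.2.1
      have hnot : ¬ fp P τ (x + (h : ℂ) * w) ∈ P.Ω := by
        intro hin
        refine g4 ⟨_, _, g1', hin, ?_, ?_, τ, hτ', rfl, rfl⟩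
        · linarith
        · rw [hn]; exact hκ
      rw [hfo] at hnot
      push Not at hnot
      obtain ⟨j, -, hj⟩ := hnot
      exact mem_iUnion.2 ⟨j, hj⟩
    have hle : pv P (Nu P κ a h R 0) ≤ pv P B := (h4 ι P).2.1 _ _ hsub
    have hB0 : pv P B = 0 := by
      unfold pv PI
      have hmeas : Measurable (Function.uncurry fun (x : ℂ) (θ : ℝ) =>
          B.indicator (1 : ℂ × ℂ → ENNReal) (x, Complex.exp ((θ : ℂ) * Complex.I))) := by
        have hm1 : Measurable (B.indicator (1 : ℂ × ℂ → ENNReal)) :=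
          measurable_one.indicator hBm
        have hm2 : Measurable (fun p : ℂ × ℝ => (p.1, Complex.exp ((p.2 : ℂ) * Complex.I))) := by
          fun_prop
        exact hm1.comp hm2
      rw [lintegral_lintegral_swap hmeas.aemeasurable]
      have hz : ∀ θ : ℝ, ∫⁻ x in P.Ω, B.indicator (1 : ℂ × ℂ → ENNReal)
          (x, Complex.exp ((θ : ℂ) * Complex.I)) = 0 := by
        intro θ
        have hnull : volume {x : ℂ | (x, Complex.exp ((θ : ℂ) * Complex.I)) ∈ B} = 0 := by
          have e : {x : ℂ | (x, Complex.exp ((θ : ℂ) * Complex.I)) ∈ B} =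
              ⋃ j : ι, {x : ℂ | sg P j (x + (h : ℂ) * Complex.exp ((θ : ℂ) * Complex.I)) = 0} := by
            ext x
            simp only [hB, mem_iUnion, mem_ofPred_eq]
          rw [e]
          exact measure_iUnion_null fun j => nl_line P j _
        have hae : ∀ᵐ x : ℂ, B.indicator (1 : ℂ × ℂ → ENNReal)
            (x, Complex.exp ((θ : ℂ) * Complex.I)) = 0 := by
          refine measure_mono_null (fun x hx => ?_) hnull
          by_contra hcon
          have hcon' : (x, Complex.exp ((θ : ℂ) * Complex.I)) ∉ B := hcon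
          exact hx (indicator_of_notMem hcon' _)
        rw [lintegral_congr_ae (ae_restrict_of_ae hae), lintegral_zero]
      simp only [hz, lintegral_zero]
    exact le_antisymm (hle.trans hB0.le) zero_le
  | succ n ih =>
    obtain ⟨hm, h0⟩ := ih
    have hmP := h2 ι P κ hLS a h ha hh hκ _ hm
    refine ⟨hmR.inter hmP, le_antisymm ?_ zero_le⟩
    calc pv P (Nu P κ a h R (n + 1)) ≤ pv P (Pre P κ a h (Nu P κ a h R n)) :=
          (h4 ι P).2.1 _ _ fun x w _ _ hz => hz.2
      _ ≤ pv P (Nu P κ a h R n) := h1 ι P κ hLS a h ha hh hκ _ hm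
      _ = 0 := h0

end Pool.Agent.H31.ERG
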